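import Pool.Agent.TH152.OC.Fin
import Pool.Agent.TH152.BB.Cur

/-!
MP_c69980_ag, Q1: the extended Lang–Vojta conjecture for complements of hyperplanes in abelian
covers of projective space.
-/

set_option autoImplicit false

namespace Pool.Agent.Results.MP_c69980_ag.AbelianCovers

open FF Pool.Agent.W602.Cov Pool.Agent.W602.Cov.Cover Pool.Agent.TH152.CV Pool.Agent.TH152.BB
open Pool.Agent.W602.GT Pool.Agent.TH152.OC Pool.Agent.TH766.MC

theorem ptsU_empty {n q r : ℕ} (X : Cover n q r) : X.PtsU ∅ = X.Pts := by
  ext v
  exact ⟨fun h => h.1, fun h => ⟨h, fun i hi => absurd hi (Finset.notMem_empty i)⟩⟩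

theorem pseudo_empty {n q r : ℕ} {X : Cover n q r}
    (Q : Set ((Fin (n + 1) → ℂ) × (Fin r → ℂ)) → Prop) : PseudoU X ∅ Q ↔ Pseudo X Q := by
  unfold PseudoU Pseudo ClosedU ClosedIn
  rw [ptsU_empty]

/-- For all `n ≥ 1` and `q` there is a constant `R` with the following property. Let `X` be an
abelian cover of projective `n`-space, with the equations `y k ^ m k = ∏ i, ℓ i (x) ^ e k i` in a
weighted projective space, where `ℓ 1, …, ℓ q` are any linear forms, let `U` be a set of indices, and
let `X_U` be the complement in `X` of the hyperplanes `ℓ i = 0`, `i ∈ U`. Suppose that `X` is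
irreducible, with the function field `K`, that the multiplicative group acts freely on the cone over
`X_U`, and that the multiplicities of the cover over the complement of the hyperplanes in `U` are at
least `m`, where `n (n + 1) (n + 2) < 2 m`. The following are equivalent:
`X_U` is of log general type;
for some proper closed subset `Δ` of `X_U`, all entire curves in `X_U` are in `Δ`;
for some `Δ`, the degrees of the morphisms from any given curve `C` (affine or projective) to `X_U`
with an image not contained in `Δ` are bounded;
for some `Δ`, these degrees are at most `R * max (2 * g - 2 + s) 0`, if `C` has the genus `g` and `s`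
points at infinity;
for some `Δ`, all closed subvarieties of `X_U` of positive dimension not contained in `Δ` are of log
general type;
for some `Δ`, the images of the nonconstant morphisms from the multiplicative group to `X_U` are in
`Δ`;
the arrangement of all hyperplanes `ℓ i = 0` is not reducible.

If `U` is empty, these conditions are also equivalent to the following: for some `Δ`, and for all
varieties `Y`, points `y` of `Y` and points `v` of `X` outside `Δ`, there are only finitely many
rational maps from `Y` to `X` which are regular at `y` and map it to `v`; for some `Δ`, and for all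
points `c` of the projective line and `v` of `X` outside `Δ`, there are only finitely many morphisms
from the projective line to `X` which map `c` to `v`. -/
theorem result (n q : ℕ) (hn : 1 ≤ n) : ∃ R : ℕ, 0 < R ∧ ∀ {r : ℕ} {X : Cover n q r}
    {U : Finset (Fin q)} {m : ℕ}, n * (n + 1) * (n + 2) < 2 * m → MultU X U m → X.FreeU U →
    ∀ {K : Type} [Field K] [Algebra ℂ K] {x : Fin (n + 1) → K} {y : Fin r → K},
    X.FunctionField K x y →
    [LogGeneralType ℂ K n (OffU X U x), PseudoU X U (BrodyU X U), PseudoU X U (BddU X U),
      PseudoU X U (LinU X U R), PseudoU X U (SubU X U), PseudoU X U (GmU X U),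
      ¬ Reducible X.ℓ].TFAE ∧
    (U = ∅ → [LogGeneralType ℂ K n (OffU X U x), PseudoU X U (VarMod X),
      PseudoU X U (PointedLine X)].TFAE) := by
  obtain ⟨R, hR, h1⟩ := open_tfae n q hn
  obtain ⟨R2, -, h2⟩ := gen_tfae_mult cur_all n q hn
  refine ⟨R, hR, fun {r X U m} hm hM hF {K} _ _ {x y} hK => ⟨h1 R le_rfl hm hM hF hK, ?_⟩⟩
  rintro rfl
  have ht := h1 R le_rfl hm hM hF hK
  have hF' : X.Free := fun v hv => hF v ((ptsU_empty X).symm.subset hv)
  have hM' : Pool.Agent.TH152.AC.Mult X m := fun v h1 ⟨u, h2, h3⟩ h4 =>
    hM v h1 ⟨u, h2, h3, fun i hi => absurd hi (Finset.notMem_empty i)⟩ h4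
  have ht2 := h2 R2 le_rfl hm hM' hF' hK
  tfae_have 1 ↔ 2 := (ht.out 0 6).trans ((ht2.out 10 2).trans (pseudo_empty _).symm)
  tfae_have 1 ↔ 3 := (ht.out 0 6).trans ((ht2.out 10 4).trans (pseudo_empty _).symm)
  tfae_finish

end Pool.Agent.Results.MP_c69980_ag.AbelianCovers
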