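import Pool.Agent.TH152.BB.Cur

/-!
MP_c69980_ag, Q1: the exceptional sets of abelian covers of projective space.
-/

set_option autoImplicit false

namespace Pool.Agent.Results.MP_c69980_ag.CoverExceptionalSets

open FF Pool.Agent.W602.Cov Pool.Agent.W602.Cov.Cover Pool.Agent.TH152.CV Pool.Agent.TH152.BB
open Pool.Agent.W602.GT

/-- For all `n` and `q` there is a constant `R` with the following property. Let `X` be an abelian
cover of projective `n`-space, with the equations `y k ^ m k = ∏ i, ℓ i (x) ^ e k i` in a weighted
projective space, where `ℓ 1, …, ℓ q` are any linear forms and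
`n (n + 1) (n + 2) ∑ i, e k i < 2 m k` for all `k`, such that the multiplicative group acts freely
on the cone over `X`. For every closed subset `Δ` of `X` the following are equivalent:
all entire curves in `X` are in `Δ`;
for all varieties `Y`, points `y` of `Y` and points `v` of `X` outside `Δ` there are only finitely many
rational maps from `Y` to `X` which are regular at `y` and map it to `v`;
for all points `c` of the projective line and `v` of `X` outside `Δ` there are only finitely many
morphisms from the projective line to `X` which map `c` to `v`;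
for every smooth projective curve `C` the degrees of the morphisms from `C` to `X` with an image not
contained in `Δ` are bounded;
these degrees are at most `R * max (2 * g - 2) 0`, where `g` is the genus of `C`;
all closed subvarieties of `X` of positive dimension not contained in `Δ` are of general type;
all split points of `X` are in `Δ`. -/
theorem result (n q : ℕ) : ∃ R : ℕ, 0 < R ∧ ∀ {r : ℕ} {X : Cover n q r}, Big X → X.Free →
    ∀ Δ, ClosedIn X Δ → [BrodyMod X Δ, VarMod X Δ, PointedLine X Δ, BddMod X Δ, LinMod X R Δ,
      SubMod X Δ, ∀ v, X.Split v → v ∈ Δ].TFAE := by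
  obtain ⟨R1, hR1, h1⟩ := mod_tfae' cur_all n q
  refine ⟨R1, hR1, fun {r X} hB hF Δ hΔ => ?_⟩
  have ht := h1 _ le_rfl hB hF Δ hΔ
  tfae_have 1 ↔ 7 := ht.out 1 0
  tfae_have 2 ↔ 7 := ht.out 2 0
  tfae_have 3 ↔ 7 := ht.out 4 0
  tfae_have 4 ↔ 7 := ht.out 5 0
  tfae_have 5 ↔ 7 := ht.out 6 0
  tfae_have 6 ↔ 7 := ht.out 7 0
  tfae_finish

end Pool.Agent.Results.MP_c69980_ag.CoverExceptionalSets
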