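import Pool.Agent.TH145.GF.Main
import Pool.Agent.TH145.GE.CurveLin

/-!
MP_c69980_ag, Q1: generic log complete intersections in an arbitrary projective variety satisfy
conditions 4 (log general type) and 5 (boundedness modulo a proper closed subset).

Let `K` be an algebraically closed field of characteristic `0`, and let `k` be a field contained in
`K`, with algebraic closure `k'` in `K`. Let `V` be a closed subset of projective space of dimension
`n`, defined over `k'`, of dimension at most `m`. For `a` in a finite set `A`, let `F_a` be a generic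
member of a linear system over `k'` of forms of degree `d_a`, spanned by the forms `P_{a,j}`: the
ratios of the coefficients `t_{a,j}` of `F_a` to one of them are, for all `a` together,
algebraically independent over `k`. Let `Z` be a set of indices `c` such that each of the linear
systems contains the monomials `x_c ^ (d_a - e) x_i ^ e` for all `i` and `e`.

Let `C` be a subset of `A`, let `U` be the set of the points of `V` with `F_a = 0` for all `a` in
`C` and `F_a ≠ 0` for all `a` not in `C`, and let `E` be the linear subspace `x_c = 0` (`c` in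
`Z`). Then:

* if `Y` is a subvariety of `U` of dimension `w ≥ 1` (for instance a component of `U`), not contained
  in `E`, and `2 m + 2 ≤ ∑ d_a + |C| + w`, then `Y` is of log general type;
* if `f` is a non-constant morphism from a smooth projective curve of genus `g` over `K` to `V`,
  with `F_a (f) = 0` for `a` in `C` and `F_a (f) ≠ 0` for `a` not in `C`, whose image is not
  contained in `E`, then `(∑ d_a + |C| - 2 m) deg f ≤ 2 g - 2 + |S|`, where `S` contains the points
  that are mapped to `F_a = 0` for some `a` not in `C`. So if `2 m < ∑ d_a + |C|`, then the degrees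
  of the morphisms from a given quasi-projective curve to `U`, not to `U ∩ E`, are bounded, and `U`
  is bounded modulo `U ∩ E`.

In the first part, `L` is the function field of `Y`, or a finite extension of it, and `x` is the
generic point of `Y`, in homogeneous coordinates. A prime divisor `Q` over the closure of `Y` has its
centre outside `U` if `d_a min_i ord_Q (x_i) < ord_Q (F_a (x))` for some `a` not in `C`. In the
second part, the curve is given by its function field `L`, of transcendence degree one over `K`, and
`x` are homogeneous coordinates of the morphism. For a point `Q` of the curve, `pord Q x` is the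
minimum of the orders at `Q` of the nonzero coordinates; `pht K x` is minus the sum of these numbers,
the degree of `f`. The number `canDeg K L` is `2 g - 2`: it is minus the sum over the points `Q` of
the orders of `δ (t_Q)`, where `t_Q` is a uniformizer at `Q`, for any nonzero derivation `δ` of `L`
over `K`.
-/

set_option autoImplicit false

namespace Pool.Agent.Results.MP_c69980_ag.GenericPairs

open MvPolynomial FF Pool.Agent.W602.GT Pool.Agent.W603.LV Pool.Agent.W603.PV Pool.Agent.TH145.MG

theorem result {k K : Type} [Field k] [Field K] [IsAlgClosed K] [CharZero K] [Algebra k K]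
    {n m : ℕ}
    -- a closed subset of projective space, of dimension at most `m`
    (V : Set (MvPolynomial (Fin (n + 1)) (algebraicClosure k K)))
    (hVh : ∀ f ∈ V, ∃ e, f.IsHomogeneous e) (hV : DimLE (algebraicClosure k K) V m)
    -- linear systems of forms of degrees `d a`
    {A : Type} [Fintype A] (d : A → ℕ) {J : A → Type} [∀ a, Fintype (J a)]
    (P : ∀ a, J a → MvPolynomial (Fin (n + 1)) (algebraicClosure k K))
    (hP : ∀ a j, (P a j).IsHomogeneous (d a))
    -- the coefficients; their ratios are algebraically independent over `k`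
    (t : ∀ a, J a → K) (j0 : ∀ a, J a) (h0 : ∀ a, t a (j0 a) ≠ 0)
    (hgen : AlgebraicIndependent k fun p : (a : A) × {j : J a // j ≠ j0 a} =>
      t p.1 p.2.1 / t p.1 (j0 p.1))
    -- the forms
    (F : A → MvPolynomial (Fin (n + 1)) K)
    (hF : ∀ a, F a = ∑ j, MvPolynomial.C (t a j) * map (algebraMap (algebraicClosure k K) K) (P a j))
    -- the linear systems contain monomials in two variables
    (Z : Set (Fin (n + 1)))
    (hZ : ∀ c ∈ Z, ∀ (a : A) (i : Fin (n + 1)) (e : ℕ), e ≤ d a →
      ∃ j, P a j = X c ^ (d a - e) * X i ^ e)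
    -- `U` is given by `F a = 0` for `a ∈ C` and `F a ≠ 0` for `a ∉ C`
    (C : Finset A) :
    -- log general type
    (∀ (L : Type) [Field L] [Algebra K L] (w : ℕ) (x : Fin (n + 1) → L), 0 < w →
      Algebra.trdeg K L = w → (∃ c ∈ Z, x c ≠ 0) → Algebra.IsAlgebraic (coords K x) L →
      (∀ f ∈ V, aeval x (map (algebraMap (algebraicClosure k K) K) f) = 0) →
      (∀ a ∈ C, aeval x (F a) = 0) → (∀ a, a ∉ C → aeval x (F a) ≠ 0) →
      2 * m + 2 ≤ ∑ a, d a + C.card + w →
      LogGeneralType K L w fun Q : Place K L =>
        ∃ a, a ∉ C ∧ d a * pord Q x < Q.ord (aeval x (F a))) ∧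
    -- boundedness; the points that are mapped to a hypersurface `F a = 0` with `a ∉ C` are in `S`
    (∀ (L : Type) [Field L] [Algebra K L] [IsFF K L] (x : Fin (n + 1) → L),
      (∃ c ∈ Z, x c ≠ 0) → (∃ i j, x j ≠ 0 ∧ x i / x j ∉ Set.range (algebraMap K L)) →
      (∀ f ∈ V, aeval x (map (algebraMap (algebraicClosure k K) K) f) = 0) →
      (∀ a ∈ C, aeval x (F a) = 0) → (∀ a, a ∉ C → aeval x (F a) ≠ 0) →
      ∀ S : Finset (Place K L),
      (∀ Q : Place K L, ∀ a, a ∉ C → d a * pord Q x < Q.ord (aeval x (F a)) → Q ∈ S) →
      (∀ δ : Derivation K L L, δ ≠ 0 → canDeg K L = - ∑ᶠ Q : Place K L, Q.ord (δ Q.surj.choose)) ∧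
      (((∑ a, d a : ℕ) : ℤ) + C.card - 2 * m) * pht K x ≤ canDeg K L + S.card) := by
  classical
  have hind : AlgebraicIndependent (algebraicClosure k K)
      fun p : (a : A) × {j : J a // j ≠ j0 a} => t p.1 p.2.1 / t p.1 (j0 p.1) :=
    hgen.algebraicClosure
  have hSt : ∀ c ∈ Z, ∀ a, ∀ I ∈ Pool.Agent.TH145.GD.St c (d a), ∃ j, P a j = monomial I 1 := by
    intro c hc a I hI
    obtain ⟨i, e, he, rfl⟩ := hI
    obtain ⟨j, hj⟩ := hZ c hc a i e he
    refine ⟨j, ?_⟩
    rw [hj, Pool.Agent.TH145.GD.sM, X_pow_eq_monomial, X_pow_eq_monomial, monomial_mul, one_mul]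
  constructor
  · intro L _ _ w x hw htr hxZ hxL hxV hxC hxD hd
    obtain ⟨c, hcZ, hc⟩ := hxZ
    exact Pool.Agent.TH145.GF.log_general V hVh hV P hP t j0 h0 hind c (hSt c hcZ) hF C hw hd htr x
      hc hxL hxV hxC hxD
  · intro L _ _ _ x hxZ hx hxV hxC hxD S hS
    obtain ⟨c, hcZ, hc⟩ := hxZ
    refine ⟨fun δ hδ => canDeg_eq hδ, ?_⟩
    have h1 := Pool.Agent.TH145.GE.curve_lin V hVh hV P hP t j0 h0 hind c (hSt c hcZ) hF
      C x hc hx hxV hxC hxD
    have h2 : {Q : Place K L | ∃ a, a ∉ C ∧ d a * pord Q x < Q.ord (aeval x (F a))} ⊆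
        (S : Set (Place K L)) := by
      rintro Q ⟨a, ha, h⟩
      exact hS Q a ha h
    have h3 := Set.ncard_le_ncard h2 S.finite_toSet
    rw [Set.ncard_coe_finset] at h3
    exact h1.trans (add_le_add le_rfl (by exact_mod_cast h3))

end Pool.Agent.Results.MP_c69980_ag.GenericPairs
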