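import Mathlib
import Pool.Agent.TH710.NU.Cond
import Pool.Agent.TH710.NW.Lgt

/-!
Entire curves, pointed maps, boundedness and log general type for quasi-projective varieties given
by nested sums of few high powers of linear forms.
-/

set_option autoImplicit false

namespace Pool.Agent.Results.MP_c69980_ag.NestedConditions

open FF MvPolynomial Pool.Agent.H159R3.War Pool.Agent.H159R3.WarLog Pool.Agent.W603.GW
  Pool.Agent.W603.GX Pool.Agent.W603.GY Pool.Agent.W602.GT Pool.Agent.W603.CXQ
  Pool.Agent.W603.LV Pool.Agent.W603.PV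

/-- Let `X` be the quasi-projective variety `F i = 0`, `Q j ≠ 0` in complex projective `n`-space,
where the `F i` and the finitely many `Q j` are nested sums of few high powers of linear forms.
First part: for every set `A` of polynomials, with the set `Δ` of its zeros, the following are
equivalent: all entire curves in `X` lie in `Δ`; through each point of `X` outside `Δ` there are
only finitely many pointed maps from the multiplicative group to `X`; `X` is bounded modulo `Δ`;
the degrees of the maps from curves `C` to `X` with image not in `Δ` are at most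
`B max (2 g - 2 + |S|, 0)`; all morphisms from the multiplicative group to `X` which are not
constant have image in `Δ`. Second part: the same for a proper closed subset of `X`. Third part:
the relation with log general type. -/
theorem result {n : ℕ} {ι κ : Type} [Finite κ] (F : ι → MvPolynomial (Fin (n + 1)) ℂ)
    (Q : κ → MvPolynomial (Fin (n + 1)) ℂ) (hF : ∀ i, Pool.Agent.TH710.NW.Tower (F i))
    (hQ : ∀ j, ∃ d, Pool.Agent.TH710.NW.TowerLog (Q j) d) :
    -- modulo a closed subset
    (∀ A : Set (MvPolynomial (Fin (n + 1)) ℂ),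
      [∀ f, EntireCurve F Q f → ∀ z, ∀ G ∈ A, eval (f z) G = 0,
        ∀ x ∈ Pts F Q, (∃ G ∈ A, eval x G ≠ 0) → (PointedMaps F Q x).Finite,
        ∀ (L : Type) [Field L] [Algebra ℂ L] [IsFF ℂ L] (S : Finset (Place ℂ L)), ∃ B : ℤ,
          ∀ f : Fin (n + 1) → L, IsMap F Q S f → (∃ G ∈ A, aeval f G ≠ 0) → pht ℂ f ≤ B,
        ∃ B : ℕ, ∀ (L : Type) [Field L] [Algebra ℂ L] [IsFF ℂ L] (S : Finset (Place ℂ L))
          (f : Fin (n + 1) → L), IsMap F Q S f → (∃ G ∈ A, aeval f G ≠ 0) →
            pht ℂ f ≤ B * max (canDeg ℂ L + S.card) 0,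
        ∀ x ∈ gmPoints F Q, ∀ G ∈ A, eval x G = 0].TFAE) ∧
    -- the conditions
    [PseudoBrody F Q, FewPointedMaps F Q, BoundedModulo F Q, LinearlyBounded F Q,
      gmPoints F Q ≠ Pts F Q].TFAE ∧
    -- log general type
    ∀ (K : Type) [Field K] [Algebra ℂ K] (w : ℕ) (y : Fin (n + 1) → K),
      SubVarQ F Q K w y → GenericQ F Q y →
      (LogGeneralType ℂ K w (OffAny Q y) → LinearlyBounded F Q) ∧
      ∀ s N h : ℕ, (∀ i, Pool.Agent.TH710.ND.IsNested s N h (F i)) →
        (∀ j, Pool.Agent.TH710.ND.IsNested s N h (Q j)) →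
        (n + 1) * ((h + 1) * (2 * s + 1) ^ 5) ≤ N →
        (LogGeneralType ℂ K w (OffAny Q y) ↔ LinearlyBounded F Q) := by
  have h1 := Pool.Agent.TH710.NU.cond_tfae hF hQ
  have h2 : LinearlyBounded F Q ↔ gmPoints F Q ≠ Pts F Q := h1.out 3 4
  have hlgt : ∀ (K : Type) [Field K] [Algebra ℂ K] (w : ℕ) (y : Fin (n + 1) → K),
      SubVarQ F Q K w y → GenericQ F Q y → LogGeneralType ℂ K w (OffAny Q y) →
        LinearlyBounded F Q := fun K _ _ w y hy hg h =>
    h2.2 (Pool.Agent.TH710.NW.ne_of_lgt (fun i => (hF i).stab) (fun j => by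
      obtain ⟨d, hd⟩ := hQ j
      exact ⟨d, hd.stab⟩) hy hg h)
  refine ⟨fun A => Pool.Agent.TH710.NU.mod_tfae hF hQ A, h1, fun K _ _ w y hy hg =>
    ⟨hlgt K w y hy hg, fun s N h hF' hQ' hN => ⟨hlgt K w y hy hg, fun h' => ?_⟩⟩⟩
  exact Pool.Agent.TH710.ND.lgt_of_gm_ne hF' hQ' hN (h2.1 h') hy hg

end Pool.Agent.Results.MP_c69980_ag.NestedConditions
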